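import Pool.Agent.Helper61.Tri.Goals

set_option autoImplicit false

open Finset

namespace Pool.Agent.Helper68.Tri

open Pool.Agent.Helper61.Tri
open scoped Classical

/-- the greedy choice -/
theorem greedy {V : Type} [Fintype V] (G : SimpleGraph V) (R : V → V → Prop) (N : ℕ)
    (x : ℕ → V) (W : Finset V) (β0 β' : ℝ) (hβ' : 0 ≤ β')
    (hR : ∀ i < N, ∀ w ∈ W, R (x i) w)
    (hW : β0 * (Fintype.card V : ℝ) ≤ (W.card : ℝ))
    (hsmall : (N : ℝ) + (N : ℝ) * (N : ℝ) * (β' * (Fintype.card V : ℝ))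
      < β0 * (Fintype.card V : ℝ))
    (hcount : ∀ (y : V) (X : Finset V), ((univ.filter fun w : V => R y w ∧ cn G y w = X).card : ℝ)
      < β' * (Fintype.card V : ℝ)) (v0 : V) :
    ∀ m ≤ N, ∃ w : ℕ → V, (∀ j < m, w j ∈ W) ∧
      ∀ j < m, ∀ j' < m, j ≠ j' → w j ≠ w j' ∧ ∀ i < N, cn G (x i) (w j) ≠ cn G (x i) (w j') := by
  intro m
  induction m with
  | zero =>
    intro _
    exact ⟨fun _ => v0, fun j hj => absurd hj (Nat.not_lt_zero _),
      fun j hj => absurd hj (Nat.not_lt_zero _)⟩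
  | succ m ih =>
    intro hm
    obtain ⟨w, hw1, hw2⟩ := ih (by omega)
    set F : Finset V := (range m).biUnion fun j => insert (w j)
      ((range N).biUnion fun i => univ.filter fun v : V => R (x i) v ∧
        cn G (x i) v = cn G (x i) (w j)) with hF
    have hn : (0 : ℝ) ≤ (Fintype.card V : ℝ) := Nat.cast_nonneg _
    have hinner : ∀ j ∈ range m, ((insert (w j)
      ((range N).biUnion fun i => univ.filter fun v : V => R (x i) v ∧
        cn G (x i) v = cn G (x i) (w j))).card : ℝ) ≤ 1 + (N : ℝ) * (β' * (Fintype.card V : ℝ)) := by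
      intro j _
      have h1 : ((((range N).biUnion fun i => univ.filter fun v : V => R (x i) v ∧
        cn G (x i) v = cn G (x i) (w j))).card : ℝ) ≤ (N : ℝ) * (β' * (Fintype.card V : ℝ)) := by
        have h2 : ((((range N).biUnion fun i => univ.filter fun v : V => R (x i) v ∧
          cn G (x i) v = cn G (x i) (w j))).card : ℝ) ≤
          ((∑ i ∈ range N, (univ.filter fun v : V => R (x i) v ∧
          cn G (x i) v = cn G (x i) (w j)).card : ℕ) : ℝ) := by
          exact_mod_cast card_biUnion_le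
        refine h2.trans ?_
        push_cast
        calc (∑ i ∈ range N, ((univ.filter fun v : V => R (x i) v ∧
          cn G (x i) v = cn G (x i) (w j)).card : ℝ))
            ≤ ∑ i ∈ range N, (β' * (Fintype.card V : ℝ)) :=
              sum_le_sum fun i _ => (hcount _ _).le
          _ = (N : ℝ) * (β' * (Fintype.card V : ℝ)) := by
              rw [sum_const, card_range, nsmul_eq_mul]
      have h3 := card_insert_le (w j) ((range N).biUnion fun i => univ.filter fun v : V =>
        R (x i) v ∧ cn G (x i) v = cn G (x i) (w j))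
      have h4 : ((insert (w j)
        ((range N).biUnion fun i => univ.filter fun v : V => R (x i) v ∧
        cn G (x i) v = cn G (x i) (w j))).card : ℝ) ≤ ((((range N).biUnion fun i =>
          univ.filter fun v : V => R (x i) v ∧
        cn G (x i) v = cn G (x i) (w j))).card : ℝ) + 1 := by exact_mod_cast h3
      linarith
    have hFc : (F.card : ℝ) ≤ (m : ℝ) * (1 + (N : ℝ) * (β' * (Fintype.card V : ℝ))) := by
      have h2 : (F.card : ℝ) ≤ ((∑ j ∈ range m, (insert (w j)
        ((range N).biUnion fun i => univ.filter fun v : V => R (x i) v ∧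
        cn G (x i) v = cn G (x i) (w j))).card : ℕ) : ℝ) := by
        exact_mod_cast card_biUnion_le
      refine h2.trans ?_
      push_cast
      refine (sum_le_sum hinner).trans ?_
      rw [sum_const, card_range, nsmul_eq_mul]
    have hmN : (m : ℝ) ≤ (N : ℝ) := by exact_mod_cast (by omega : m ≤ N)
    have hnn : (0 : ℝ) ≤ 1 + (N : ℝ) * (β' * (Fintype.card V : ℝ)) := by positivity
    have hlt : (F.card : ℝ) < (W.card : ℝ) := by
      calc (F.card : ℝ) ≤ (m : ℝ) * (1 + (N : ℝ) * (β' * (Fintype.card V : ℝ))) := hFc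
        _ ≤ (N : ℝ) * (1 + (N : ℝ) * (β' * (Fintype.card V : ℝ))) :=
            mul_le_mul_of_nonneg_right hmN hnn
        _ = (N : ℝ) + (N : ℝ) * (N : ℝ) * (β' * (Fintype.card V : ℝ)) := by ring
        _ < β0 * (Fintype.card V : ℝ) := hsmall
        _ ≤ (W.card : ℝ) := hW
    obtain ⟨v, hvW, hvF⟩ : ∃ v ∈ W, v ∉ F := by
      by_contra hcon
      push Not at hcon
      have := card_le_card (show W ⊆ F from fun v hv => hcon v hv)
      have h5 : (W.card : ℝ) ≤ (F.card : ℝ) := by exact_mod_cast this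
      linarith
    have key : ∀ j < m, v ≠ w j ∧ ∀ i < N, cn G (x i) v ≠ cn G (x i) (w j) := by
      intro j hj
      constructor
      · intro h
        apply hvF
        rw [hF, mem_biUnion]
        exact ⟨j, mem_range.2 hj, by rw [h]; exact mem_insert_self _ _⟩
      · intro i hi h
        apply hvF
        rw [hF, mem_biUnion]
        refine ⟨j, mem_range.2 hj, mem_insert_of_mem ?_⟩
        rw [mem_biUnion]
        exact ⟨i, mem_range.2 hi, mem_filter.2 ⟨mem_univ _, hR i hi v hvW, h⟩⟩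
    refine ⟨fun j => if j = m then v else w j, ?_, ?_⟩
    · intro j hj
      by_cases hjm : j = m
      · simp only [hjm, if_true]; exact hvW
      · simp only [if_neg hjm]; exact hw1 j (by omega)
    · intro j hj j' hj' hne
      by_cases hjm : j = m
      · have hjm' : j' ≠ m := fun h => hne (hjm.trans h.symm)
        simp only [hjm, if_true, if_neg hjm']
        exact key j' (by omega)
      · by_cases hjm' : j' = m
        · simp only [hjm', if_true, if_neg hjm]
          obtain ⟨h1, h2⟩ := key j (by omega)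
          exact ⟨h1.symm, fun i hi => (h2 i hi).symm⟩
        · simp only [if_neg hjm, if_neg hjm']
          exact hw2 j (by omega) j' (by omega) hne

theorem u3a : KST → U2 → U3A := by
  intro kst u2 s hs κ hκ β hβ
  obtain ⟨N, hN⟩ := u2 s hs κ hκ
  obtain ⟨β0, hβ0, n1, hn1⟩ := kst N β hβ
  refine ⟨β0 / (2 * ((N : ℝ) * (N : ℝ) + 1)), by positivity,
    max n1 (⌈(2 * ((N : ℝ) + 1)) / β0⌉₊ + 1), ?_⟩
  intro V _ hV G hG R hRE hRc
  by_contra hcon
  push Not at hcon
  obtain ⟨x, W, hx, hW, hR⟩ := hn1 V (le_trans (le_max_left _ _) hV) R hRc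
  have hV2 : ⌈(2 * ((N : ℝ) + 1)) / β0⌉₊ + 1 ≤ Fintype.card V := le_trans (le_max_right _ _) hV
  have hVr : (2 * ((N : ℝ) + 1)) / β0 < (Fintype.card V : ℝ) := by
    have h1 : (2 * ((N : ℝ) + 1)) / β0 ≤ (⌈(2 * ((N : ℝ) + 1)) / β0⌉₊ : ℝ) := Nat.le_ceil _
    have h2 : ((⌈(2 * ((N : ℝ) + 1)) / β0⌉₊ : ℝ)) + 1 ≤ (Fintype.card V : ℝ) := by
      exact_mod_cast hV2
    linarith
  rw [div_lt_iff₀ hβ0] at hVr
  have hcardpos : 0 < Fintype.card V := by omega
  obtain ⟨v0⟩ : Nonempty V := Fintype.card_pos_iff.1 hcardpos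
  have hn : (0 : ℝ) ≤ (Fintype.card V : ℝ) := Nat.cast_nonneg _
  have hsmall : (N : ℝ) + (N : ℝ) * (N : ℝ) * (β0 / (2 * ((N : ℝ) * (N : ℝ) + 1))
      * (Fintype.card V : ℝ)) < β0 * (Fintype.card V : ℝ) := by
    have h1 : (N : ℝ) * (N : ℝ) * (β0 / (2 * ((N : ℝ) * (N : ℝ) + 1))) ≤ β0 / 2 := by
      rw [← mul_div_assoc, div_le_div_iff₀ (by positivity) (by norm_num)]
      nlinarith [mul_nonneg (Nat.cast_nonneg (α := ℝ) N) (Nat.cast_nonneg (α := ℝ) N)]
    have h2 : (N : ℝ) * (N : ℝ) * (β0 / (2 * ((N : ℝ) * (N : ℝ) + 1))) * (Fintype.card V : ℝ)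
        ≤ β0 / 2 * (Fintype.card V : ℝ) := mul_le_mul_of_nonneg_right h1 hn
    have h3 : (N : ℝ) * (N : ℝ) * (β0 / (2 * ((N : ℝ) * (N : ℝ) + 1)) * (Fintype.card V : ℝ))
      = (N : ℝ) * (N : ℝ) * (β0 / (2 * ((N : ℝ) * (N : ℝ) + 1))) * (Fintype.card V : ℝ) := by
      ring
    rw [h3]
    linarith
  obtain ⟨w, hw1, hw2⟩ := greedy G R N x W β0 (β0 / (2 * ((N : ℝ) * (N : ℝ) + 1))) (by positivity)
    hR hW hsmall hcon v0 N le_rfl
  have hgrid : Grid G N x w :=
    { adj := fun i hi j hj => (hRE _ _ (hR i hi (w j) (hw1 j hj))).1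
      injx := hx
      injw := fun i hi j hj h => by
        by_contra hne
        exact (hw2 i hi j hj hne).1 h }
  obtain ⟨i, hi, j, hj, j', hj', hne, heq⟩ := hN V G x w hG hgrid
    (fun i hi j hj => hRE _ _ (hR i hi (w j) (hw1 j hj)))
  exact (hw2 j hj j' hj' hne).2 i hi heq

end Pool.Agent.Helper68.Tri
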